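import Pool.Agent.Q62.SD.Bal

/-!
The energy defect of a time slice (helper62).
-/

set_option autoImplicit false

open MeasureTheory Set Metric Filter Topology
open scoped ContDiff ENNReal

namespace Pool.Agent.Q62.JC

open H459R3.NS W221.NS Pool.Agent.Y8 Pool.Agent.W583.MD Pool.Agent.Q62.SD

/-- A cut-off function in time. -/
noncomputable def ct (s t η τ : ℝ) : ℝ :=
  Real.smoothTransition ((τ - s) * (2 / η) - 1) * Real.smoothTransition ((t - τ) * (2 / η) - 1)

lemma ct_sm (s t η : ℝ) : ContDiff ℝ ∞ (ct s t η) := by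
  unfold ct
  refine (Real.smoothTransition.contDiff.comp ?_).mul (Real.smoothTransition.contDiff.comp ?_)
  · exact ((contDiff_id.sub contDiff_const).mul contDiff_const).sub contDiff_const
  · exact ((contDiff_const.sub contDiff_id).mul contDiff_const).sub contDiff_const

lemma ct_nn (s t η τ : ℝ) : 0 ≤ ct s t η τ :=
  mul_nonneg (Real.smoothTransition.nonneg _) (Real.smoothTransition.nonneg _)

lemma ct_le1 (s t η τ : ℝ) : ct s t η τ ≤ 1 :=
  mul_le_one₀ (Real.smoothTransition.le_one _) (Real.smoothTransition.nonneg _)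
    (Real.smoothTransition.le_one _)

lemma ct_one {s t η τ : ℝ} (hη : 0 < η) (h1 : s + η ≤ τ) (h2 : τ ≤ t - η) : ct s t η τ = 1 := by
  unfold ct
  rw [Real.smoothTransition.one_of_one_le, Real.smoothTransition.one_of_one_le, mul_one]
  · have : 2 ≤ (t - τ) * (2 / η) := by
      rw [← mul_div_assoc, le_div_iff₀ hη]
      nlinarith
    linarith
  · have : 2 ≤ (τ - s) * (2 / η) := by
      rw [← mul_div_assoc, le_div_iff₀ hη]
      nlinarith
    linarith

lemma ct_zero1 {s t η τ : ℝ} (hη : 0 < η) (h1 : τ ≤ s + η / 2) : ct s t η τ = 0 := by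
  unfold ct
  rw [Real.smoothTransition.zero_of_nonpos, zero_mul]
  have : (τ - s) * (2 / η) ≤ 1 := by
    rw [← mul_div_assoc, div_le_iff₀ hη]
    nlinarith
  linarith

lemma ct_zero2 {s t η τ : ℝ} (hη : 0 < η) (h1 : t - η / 2 ≤ τ) : ct s t η τ = 0 := by
  unfold ct
  rw [Real.smoothTransition.zero_of_nonpos (x := (t - τ) * (2 / η) - 1), mul_zero]
  have : (t - τ) * (2 / η) ≤ 1 := by
    rw [← mul_div_assoc, div_le_iff₀ hη]
    nlinarith
  linarith

lemma ct_supp {s t η : ℝ} (hη : 0 < η) : tsupport (ct s t η) ⊆ Icc (s + η / 2) (t - η / 2) := by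
  refine closure_minimal (fun τ hτ => ?_) isClosed_Icc
  have hτ' : ct s t η τ ≠ 0 := hτ
  constructor
  · by_contra hc
    push Not at hc
    exact hτ' (ct_zero1 hη hc.le)
  · by_contra hc
    push Not at hc
    exact hτ' (ct_zero2 hη hc.le)

section

variable {T E D : ℝ} {G : Set ℝ} {u : ℝ → V → V} {p : ℝ → V → ℝ}

/-- The integrand of the local balance is bounded by the majorant. -/
lemma DD_abs (h : Turb 1 T E D G u p) {w : V → ℝ} (hw : ContDiff ℝ ∞ w) {a : V} {R : ℝ}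
    (hR : 0 < R) (hw0 : ∀ x ∉ ball a R, w x = 0) :
    ∃ C : ℝ, 0 < C ∧ ∀ τ ∈ G, |DD 1 u p (fun _ => w) τ| ≤ C * kk u p τ := by
  obtain ⟨C', hC', hmaj⟩ := maj E R
  have hΦ : ContDiffOn ℝ ∞ (fun z : ℝ × V => (fun (_ : ℝ) x => w x) z.1 z.2)
      (Ioo (-1) (T + 1) ×ˢ univ) := (hw.comp contDiff_snd).contDiffOn
  obtain ⟨M1, hM1, hb⟩ := tbd hΦ hR (fun _ _ x hx => hw0 x hx) (s := 0) (t := T)
    (by norm_num) (by linarith)
  refine ⟨8 * M1 * C' + 1, by positivity, fun t ht => ?_⟩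
  have hut := h.spv ht
  have hpt := h.sp ht
  have hk := zero_le_one.trans (kk_pos u p t)
  have hΦG : ContDiffOn ℝ ∞ (fun z : ℝ × V => (fun (_ : ℝ) x => w x) z.1 z.2) (G ×ˢ univ) :=
    (hw.comp contDiff_snd).contDiffOn
  have hz : ∀ z ∉ ball a R, ed 1 u p (fun (_ : ℝ) x => w x) t z = 0 := fun z hz =>
    ed_zero 1 h.openG hΦG hR (fun _ _ x hx => hw0 x hx) ht hz
  have hMc := MM_cont hut.1 hpt.smooth.continuous
  have e1 : DD 1 u p (fun _ => w) t = ∫ x, ed 1 u p (fun (_ : ℝ) x => w x) t x :=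
    DD_eq 1 h.openG h.smooth_u h.smooth_p (φ := fun _ => w) hΦG hR
      (fun _ _ x hx => hw0 x hx) ht
  have h1 : |DD 1 u p (fun _ => w) t| ≤ ∫ x in ball a R, 8 * M1 * MM (u t) (p t) x := by
    rw [e1, ← ball_int_eq hz]
    refine abs_int_le (ballint (continuous_const.mul hMc) _ _) (ae_of_all _ fun x => ?_)
    obtain ⟨b0, b1, b2, b3⟩ := hb t (Ioo_subset_Icc_self (h.subG ht)) x
    exact ed_abs hM1 b0 b1 b2 b3
  refine h1.trans ?_
  rw [integral_const_mul]
  have h2 := mul_le_mul_of_nonneg_left (hmaj _ _ hut hpt (h.energy_le t ht) a)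
    (show 0 ≤ 8 * M1 by positivity)
  refine h2.trans ?_
  have e2 : 8 * M1 * (C' * (1 + enstrophy (u t) + ∫ y in cube, |p t y| ^ (3 / 2 : ℝ)))
      = 8 * M1 * C' * kk u p t := by
    unfold kk
    ring
  rw [e2]
  nlinarith

/-- The defect between two regular times. -/
theorem mid (h : Turb 1 T E D G u p) {w : V → ℝ} (hw : ContDiff ℝ ∞ w) {a : V} {R : ℝ}
    (hR : 0 < R) (hw0 : ∀ x ∉ ball a R, w x = 0) (hwn : ∀ x, 0 ≤ w x) {s t t₀ : ℝ} (hs : s ∈ G)
    (ht : t ∈ G) (h1 : s < t₀) (h2 : t₀ < t) :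
    ∃ θ : ℝ → ℝ, (∀ τ, 0 ≤ θ τ ∧ θ τ ≤ 1) ∧ (∀ᶠ τ in 𝓝 t₀, θ τ = 1) ∧ tsupport θ ⊆ Icc s t ∧
      Test T (fun τ x => θ τ * w x) ∧
      Df G u p (fun τ x => θ τ * w x) = (∫ z, nsq (u s) z * w z) - (∫ z, nsq (u t) z * w z)
        + ∫ τ in Ioo s t, DD 1 u p (fun _ => w) τ := by
  obtain ⟨e1, he1, hb1⟩ := Metric.isOpen_iff.1 h.openG s hs
  obtain ⟨e2, he2, hb2⟩ := Metric.isOpen_iff.1 h.openG t ht
  obtain ⟨η, hη0, hη⟩ : ∃ η : ℝ, 0 < η ∧ η < min (min e1 e2) (min (t₀ - s) (t - t₀)) :=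
    exists_between (lt_min (lt_min he1 he2) (lt_min (by linarith) (by linarith)))
  have hη1 : η < e1 := hη.trans_le ((min_le_left _ _).trans (min_le_left _ _))
  have hη2 : η < e2 := hη.trans_le ((min_le_left _ _).trans (min_le_right _ _))
  have hη3 : η < t₀ - s := hη.trans_le ((min_le_right _ _).trans (min_le_left _ _))
  have hη4 : η < t - t₀ := hη.trans_le ((min_le_right _ _).trans (min_le_right _ _))
  have hG1 : Icc s (s + η) ⊆ G := fun τ hτ => hb1 (by
    rw [mem_ball, Real.dist_eq, abs_lt]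
    constructor <;> linarith [hτ.1, hτ.2])
  have hG2 : Icc (t - η) t ⊆ G := fun τ hτ => hb2 (by
    rw [mem_ball, Real.dist_eq, abs_lt]
    constructor <;> linarith [hτ.1, hτ.2])
  have hsT := h.subG hs
  have htT := h.subG ht
  set θ : ℝ → ℝ := ct s t η with hθd
  have hθ : ContDiff ℝ ∞ θ := ct_sm s t η
  have hθsupp : tsupport θ ⊆ Icc (s + η / 2) (t - η / 2) := ct_supp hη0
  have hθc : HasCompactSupport θ := isCompact_Icc.of_isClosed_subset (isClosed_tsupport _) hθsupp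
  have hθst : tsupport θ ⊆ Ioo s t := hθsupp.trans fun τ hτ =>
    ⟨by linarith [hτ.1], by linarith [hτ.2]⟩
  have hΦ : ContDiffOn ℝ ∞ (fun z : ℝ × V => (fun (_ : ℝ) x => w x) z.1 z.2)
      (Ioo (-1) (T + 1) ×ˢ univ) := (hw.comp contDiff_snd).contDiffOn
  have hΦG : ContDiffOn ℝ ∞ (fun z : ℝ × V => (fun (_ : ℝ) x => w x) z.1 z.2) (G ×ˢ univ) :=
    (hw.comp contDiff_snd).contDiffOn
  set φ : ℝ → V → ℝ := fun τ x => θ τ * w x with hφd
  have htest : Test T φ :=
    test_mul (Φ := fun _ => w) hΦ (fun _ _ x hx => hw0 x hx) (by linarith [hsT.1])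
      (by linarith [htT.2]) hsT.1 htT.2 hθ hθc hθst
  have hpos : ∀ τ x, 0 ≤ φ τ x := fun τ x => mul_nonneg (ct_nn _ _ _ _) (hwn x)
  refine ⟨θ, fun τ => ⟨ct_nn _ _ _ _, ct_le1 _ _ _ _⟩, ?_, hθst.trans Ioo_subset_Icc_self,
    htest, ?_⟩
  · filter_upwards [Ioo_mem_nhds (show s + η < t₀ by linarith) (show t₀ < t - η by linarith)]
      with τ hτ
    exact ct_one hη0 hτ.1.le hτ.2.le
  -- the balance at regular times
  have hmom : ∀ t ∈ G, ∀ x i,
      deriv (fun s => u s x i) t + ∑ j, u t x j * pd j (fun y => u t y i) x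
        = ∑ j, pd j (pd j (fun y => u t y i)) x - pd i (p t) x := fun t ht x i => by
    have := h.momentum t ht x i
    rwa [one_mul] at this
  have hen : ∀ τ ∈ G, HasDerivAt (fun s => ∫ z, nsq (u s) z * w z) (DD 1 u p (fun _ => w) τ) τ :=
    fun τ hτ => en_id h.openG h.smooth_u h.smooth_p h.divfree hmom (Φ := fun _ => w) hΦG hR
      (fun _ _ x hx => hw0 x hx) hτ
  have henφ : ∀ τ ∈ G, HasDerivAt (fun s => ∫ z, nsq (u s) z * φ s z) (DD 1 u p φ τ) τ :=
    fun τ hτ => en_id h.openG h.smooth_u h.smooth_p h.divfree hmom (test_on htest G) hR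
      (fun τ _ x hx => by rw [hφd]; beta_reduce; rw [hw0 x hx, mul_zero]) hτ
  have hst : s ≤ t := by linarith
  have hlei := lei Pool.Agent.Y494.NS.t_TCUT h hΦ hR (fun _ _ x hx => hw0 x hx) hs ht
    (by linarith [hsT.1]) hst (by linarith [htT.2]) (fun _ _ z => hwn z)
  have hri : IntegrableOn (DD 1 u p (fun _ => w)) (Ioo s t) := hlei.1
  have hae := aeG h hs ht
  have hφi : IntegrableOn (DD 1 u p φ) (Ioo s t) :=
    ((DD_int h htest).mono_set inter_subset_right).congr_set_ae hae.symm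
  have hrii : ∀ a b : ℝ, a ∈ Icc s t → b ∈ Icc s t → a ≤ b →
      IntervalIntegrable (DD 1 u p (fun _ => w)) volume a b := fun a b ha hb hab => by
    rw [intervalIntegrable_iff_integrableOn_Ioo_of_le hab]
    exact hri.mono_set (Ioo_subset_Ioo ha.1 hb.2)
  have hφii : ∀ a b : ℝ, a ∈ Icc s t → b ∈ Icc s t → a ≤ b →
      IntervalIntegrable (DD 1 u p φ) volume a b := fun a b ha hb hab => by
    rw [intervalIntegrable_iff_integrableOn_Ioo_of_le hab]
    exact hφi.mono_set (Ioo_subset_Ioo ha.1 hb.2)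
  have m0 : s ∈ Icc s t := ⟨le_rfl, hst⟩
  have m1 : s + η ∈ Icc s t := ⟨by linarith, by linarith⟩
  have m2 : t - η ∈ Icc s t := ⟨by linarith, by linarith⟩
  have m3 : t ∈ Icc s t := ⟨hst, le_rfl⟩
  -- the three parts
  have a1 : ∫ τ in s..(s + η), DD 1 u p φ τ = ∫ z, nsq (u (s + η)) z * w z := by
    rw [intervalIntegral.integral_eq_sub_of_hasDerivAt (f := fun s => ∫ z, nsq (u s) z * φ s z)
      (fun τ hτ => henφ τ (hG1 (by rwa [uIcc_of_le (by linarith)] at hτ)))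
      (hφii _ _ m0 m1 (by linarith))]
    have z1 : ct s t η s = 0 := ct_zero1 hη0 (by linarith)
    have z2 : ct s t η (s + η) = 1 := ct_one hη0 le_rfl (by linarith)
    simp only [hφd, hθd, z1, z2, one_mul, zero_mul, mul_zero, integral_zero, sub_zero]
  have a3 : ∫ τ in (t - η)..t, DD 1 u p φ τ = -∫ z, nsq (u (t - η)) z * w z := by
    rw [intervalIntegral.integral_eq_sub_of_hasDerivAt (f := fun s => ∫ z, nsq (u s) z * φ s z)
      (fun τ hτ => henφ τ (hG2 (by rwa [uIcc_of_le (by linarith)] at hτ)))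
      (hφii _ _ m2 m3 (by linarith))]
    have z1 : ct s t η t = 0 := ct_zero2 hη0 (by linarith)
    have z2 : ct s t η (t - η) = 1 := ct_one hη0 (by linarith) le_rfl
    simp only [hφd, hθd, z1, z2, one_mul, zero_mul, mul_zero, integral_zero, zero_sub]
  have b1 : ∫ τ in s..(s + η), DD 1 u p (fun _ => w) τ
      = (∫ z, nsq (u (s + η)) z * w z) - ∫ z, nsq (u s) z * w z :=
    intervalIntegral.integral_eq_sub_of_hasDerivAt (f := fun s => ∫ z, nsq (u s) z * w z)
      (fun τ hτ => hen τ (hG1 (by rwa [uIcc_of_le (by linarith)] at hτ)))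
      (hrii _ _ m0 m1 (by linarith))
  have b3 : ∫ τ in (t - η)..t, DD 1 u p (fun _ => w) τ
      = (∫ z, nsq (u t) z * w z) - ∫ z, nsq (u (t - η)) z * w z :=
    intervalIntegral.integral_eq_sub_of_hasDerivAt (f := fun s => ∫ z, nsq (u s) z * w z)
      (fun τ hτ => hen τ (hG2 (by rwa [uIcc_of_le (by linarith)] at hτ)))
      (hrii _ _ m2 m3 (by linarith))
  have hDD : ∀ τ ∈ G, DD 1 u p φ τ
      = deriv θ τ * (∫ z, nsq (u τ) z * w z) + θ τ * DD 1 u p (fun _ => w) τ := by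
    intro τ hτ
    have hut := h.spv hτ
    have htI : τ ∈ Ioo (-1) (T + 1) := by
      have := h.subG hτ
      exact ⟨by linarith [this.1], by linarith [this.2]⟩
    have i1 : Integrable fun x => nsq (u τ) x * w x :=
      int_csR ((nsq_sm hut.1).continuous.mul hw.continuous) (a := a) (R := R)
        fun z hz => by rw [hw0 z hz, mul_zero]
    have i2 : Integrable fun x => ed 1 u p (fun (_ : ℝ) x => w x) τ x :=
      int_csR (sl_ct (ed_joint 1 h.openG h.smooth_u h.smooth_p hΦG).continuousOn hτ)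
        (a := a) (R := R)
        fun z hz => ed_zero 1 h.openG hΦG hR (fun _ _ x hx => hw0 x hx) hτ hz
    have e1 : DD 1 u p (fun _ => w) τ = ∫ x, ed 1 u p (fun (_ : ℝ) x => w x) τ x :=
      DD_eq 1 h.openG h.smooth_u h.smooth_p (φ := fun _ => w) hΦG hR
        (fun _ _ x hx => hw0 x hx) hτ
    rw [DD_ed h htest hτ, e1, ← integral_const_mul, ← integral_const_mul,
      ← integral_add (i1.const_mul _) (i2.const_mul _)]
    exact integral_congr_ae (ae_of_all _ fun x =>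
      ed_mul (u := u) (p := p) (Φ := fun (_ : ℝ) x => w x) hΦ hθ htI x)
  have a2 : ∫ τ in (s + η)..(t - η), DD 1 u p φ τ
      = ∫ τ in (s + η)..(t - η), DD 1 u p (fun _ => w) τ := by
    rw [intervalIntegral.integral_of_le (by linarith), intervalIntegral.integral_of_le
      (by linarith), integral_Ioc_eq_integral_Ioo, integral_Ioc_eq_integral_Ioo]
    refine setIntegral_congr_ae measurableSet_Ioo ?_
    have h3 := aeT h (s := s) (t := t) hsT.1.le htT.2.le
    rw [ae_restrict_iff' measurableSet_Ioo] at h3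
    filter_upwards [h3] with τ hτ hτI
    have hτG : τ ∈ G := hτ ⟨by linarith [hτI.1], by linarith [hτI.2]⟩
    have h4 : θ =ᶠ[𝓝 τ] fun _ => 1 := by
      filter_upwards [Ioo_mem_nhds hτI.1 hτI.2] with σ hσ
      exact ct_one hη0 hσ.1.le hσ.2.le
    rw [hDD τ hτG, h4.deriv_eq, deriv_const, zero_mul, zero_add, h4.self_of_nhds, one_mul]
  have hDD0 : ∀ τ ∈ G \ (Ioo s t ∩ G), DD 1 u p φ τ = 0 := by
    intro τ hτ
    have hτI : τ ∉ Ioo s t := fun h' => hτ.2 ⟨h', hτ.1⟩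
    have e0 : θ τ = 0 := (th_near hθst hτI).self_of_nhds
    have hz : ∀ x, φ τ x = 0 := fun x => by rw [hφd]; beta_reduce; rw [e0, zero_mul]
    exact DD_off (funext hz) fun x => dt_min hpos (hz x)
  have hDf : Df G u p φ = ∫ τ in s..t, DD 1 u p φ τ := by
    unfold Df
    rw [setIntegral_eq_of_subset_of_forall_diff_eq_zero h.openG.measurableSet
      (inter_subset_right : Ioo s t ∩ G ⊆ G) hDD0, setIntegral_congr_set hae,
      intervalIntegral.integral_of_le hst, integral_Ioc_eq_integral_Ioo]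
  have c1 := intervalIntegral.integral_add_adjacent_intervals (hφii _ _ m0 m1 (by linarith))
    (hφii _ _ m1 m2 (by linarith))
  have c2 := intervalIntegral.integral_add_adjacent_intervals (hφii _ _ m0 m2 (by linarith))
    (hφii _ _ m2 m3 (by linarith))
  have d1 := intervalIntegral.integral_add_adjacent_intervals (hrii _ _ m0 m1 (by linarith))
    (hrii _ _ m1 m2 (by linarith))
  have d2 := intervalIntegral.integral_add_adjacent_intervals (hrii _ _ m0 m2 (by linarith))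
    (hrii _ _ m2 m3 (by linarith))
  have e3 : ∫ τ in Ioo s t, DD 1 u p (fun _ => w) τ = ∫ τ in s..t, DD 1 u p (fun _ => w) τ := by
    rw [intervalIntegral.integral_of_le hst, integral_Ioc_eq_integral_Ioo]
  rw [hDf, e3]
  linarith

/-- The majorant has small integrals over short intervals. -/
lemma K1_small (h : Turb 1 T E D G u p) (t₀ : ℝ) {ε : ℝ} (hε : 0 < ε) :
    ∃ δ : ℝ, 0 < δ ∧ ∫ τ in Ioo (t₀ - δ) (t₀ + δ), K1 G u p τ ≤ ε := by
  have hc : Continuous fun t => ∫ τ in (0 : ℝ)..t, K1 G u p τ :=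
    intervalIntegral.continuous_primitive (fun a b => (K1_int h).intervalIntegrable) 0
  have h1 : Continuous fun δ : ℝ => (∫ τ in (0 : ℝ)..(t₀ + δ), K1 G u p τ)
      - ∫ τ in (0 : ℝ)..(t₀ - δ), K1 G u p τ :=
    (hc.comp (by fun_prop)).sub (hc.comp (by fun_prop))
  have h2 := h1.tendsto 0
  simp only [add_zero, sub_zero, sub_self] at h2
  have h3 : ∀ᶠ δ in 𝓝[>] (0 : ℝ), (∫ τ in (0 : ℝ)..(t₀ + δ), K1 G u p τ)
      - (∫ τ in (0 : ℝ)..(t₀ - δ), K1 G u p τ) < ε :=
    mem_nhdsWithin_of_mem_nhds (h2.eventually_lt_const hε)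
  obtain ⟨δ, hδ, hδ0⟩ := (h3.and self_mem_nhdsWithin).exists
  have hδ0 : 0 < δ := hδ0
  refine ⟨δ, hδ0, ?_⟩
  rw [intervalIntegral.integral_interval_sub_left (K1_int h).intervalIntegrable
    (K1_int h).intervalIntegrable, intervalIntegral.integral_of_le (by linarith),
    integral_Ioc_eq_integral_Ioo] at hδ
  exact hδ.le

/-- Regular times are dense. -/
lemma denG (h : Turb 1 T E D G u p) {a b : ℝ} (hab : a < b) (ha : 0 ≤ a) (hb : b ≤ T) :
    ∃ t ∈ G, t ∈ Ioo a b := by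
  by_contra hcon
  push Not at hcon
  have h1 : Ioo a b ⊆ Ioo 0 T \ G := fun τ hτ =>
    ⟨⟨ha.trans_lt hτ.1, hτ.2.trans_le hb⟩, fun hc => hcon τ hc hτ⟩
  have h2 := measure_mono_null h1 h.fullG
  rw [Real.volume_Ioo] at h2
  exact absurd h2 (ENNReal.ofReal_pos.2 (by linarith)).ne'

/-- `r⁻¹ sup ∫ |u|²` over the times in `(t₀ - r², t₀)` and the ball of radius `r` around `x`. -/
noncomputable def la (G : Set ℝ) (u : ℝ → V → V) (t₀ : ℝ) (x : V) (r : ℝ) : ℝ≥0∞ :=
  (⨆ t ∈ G ∩ Ioo (t₀ - r ^ 2) t₀, ∫⁻ y in ball x r, ENNReal.ofReal (nsq (u t) y))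
    / ENNReal.ofReal r

lemma la_bd {t₀ : ℝ} {x : V} {r : ℝ} (hr : 0 < r) {t : ℝ} (ht : t ∈ G ∩ Ioo (t₀ - r ^ 2) t₀) :
    ∫⁻ y in ball x r, ENNReal.ofReal (nsq (u t) y) ≤ ENNReal.ofReal r * la G u t₀ x r := by
  unfold la
  rw [ENNReal.mul_div_cancel (ENNReal.ofReal_pos.2 hr).ne' ENNReal.ofReal_ne_top]
  exact le_iSup₂ (f := fun t (_ : t ∈ G ∩ Ioo (t₀ - r ^ 2) t₀) =>
    ∫⁻ y in ball x r, ENNReal.ofReal (nsq (u t) y)) t ht

/-- The cost of covering a ball in a time slice. -/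
theorem scov (h : Turb 1 T E D G u p) {t₀ : ℝ} (ht₀ : t₀ ∈ Ioo 0 T) (x : V) {R : ℝ} (hR : 0 < R)
    (hR2 : 0 < t₀ - R ^ 2) : ∃ ψ : ℝ → V → ℝ, Test T ψ ∧ (∀ t y, 0 ≤ ψ t y) ∧
      (∀ y : V, ‖y - x‖ < 3 / 4 * R → ∀ᶠ w in 𝓝 ((t₀, y) : ℝ × V), 1 ≤ ψ w.1 w.2) ∧
      ENNReal.ofReal (Df G u p ψ) ≤ ENNReal.ofReal R * (1 + la G u t₀ x R) := by
  set χ : V → ℝ := fun y => kap (R⁻¹ • (y - x)) with hχd
  have hχ : ContDiff ℝ ∞ χ := kap.contDiff.comp ((contDiff_id.sub contDiff_const).const_smul _)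
  have hχ0 : ∀ y ∉ ball x R, χ y = 0 := fun y hy => by
    rw [hχd]
    beta_reduce
    rw [kap.zero_of_le_dist]
    rw [dist_zero_right, norm_smul, Real.norm_eq_abs, abs_of_pos (by positivity)]
    change (1 : ℝ) ≤ _
    rw [inv_mul_eq_div, le_div_iff₀ hR, one_mul]
    rw [mem_ball, dist_eq_norm, not_lt] at hy
    exact hy
  have hχn : ∀ y, 0 ≤ χ y := fun y => kap.nonneg
  have hχ1 : ∀ y, χ y ≤ 1 := fun y => kap.le_one
  obtain ⟨C, hC, hCb⟩ := DD_abs h hχ hR hχ0
  obtain ⟨δ, hδ, hδK⟩ := K1_small h t₀ (show 0 < R / C by positivity)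
  set d : ℝ := min δ (min (R ^ 2) (min t₀ (T - t₀))) with hd
  have hd0 : 0 < d := lt_min hδ (lt_min (by positivity) (lt_min ht₀.1 (by linarith [ht₀.2])))
  have hd1 : d ≤ δ := min_le_left _ _
  have hd2 : d ≤ R ^ 2 := (min_le_right _ _).trans (min_le_left _ _)
  have hd3 : d ≤ t₀ := (min_le_right _ _).trans ((min_le_right _ _).trans (min_le_left _ _))
  have hd4 : d ≤ T - t₀ := (min_le_right _ _).trans ((min_le_right _ _).trans (min_le_right _ _))
  obtain ⟨s, hs, hsI⟩ := denG h (show t₀ - d < t₀ by linarith) (by linarith) ht₀.2.le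
  obtain ⟨t, ht, htI⟩ := denG h (show t₀ < t₀ + d by linarith) ht₀.1.le (by linarith)
  obtain ⟨θ, hθ01, hθ1, -, hθT, hθDf⟩ := mid h hχ hR hχ0 hχn hs ht hsI.2 htI.1
  refine ⟨fun τ y => θ τ * χ y, hθT, fun τ y => mul_nonneg (hθ01 τ).1 (hχn y), ?_, ?_⟩
  · intro y hy
    have h1 : ∀ᶠ w in 𝓝 ((t₀, y) : ℝ × V), θ w.1 = 1 :=
      (continuous_fst.tendsto ((t₀, y) : ℝ × V)).eventually hθ1
    have hop : IsOpen {v : ℝ × V | ‖v.2 - x‖ < 3 / 4 * R} :=
      isOpen_lt (continuous_snd.sub continuous_const).norm continuous_const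
    filter_upwards [h1, hop.mem_nhds (show ((t₀, y) : ℝ × V) ∈ {v : ℝ × V | ‖v.2 - x‖ < 3 / 4 * R}
      from hy)] with w hw1 hw2
    rw [hw1, one_mul]
    refine le_of_eq ?_
    rw [hχd]
    beta_reduce
    rw [kap.one_of_mem_closedBall]
    rw [mem_closedBall, dist_zero_right, norm_smul, Real.norm_eq_abs,
      abs_of_pos (by positivity)]
    change _ ≤ (3 / 4 : ℝ)
    rw [inv_mul_eq_div, div_le_iff₀ hR]
    exact le_of_lt hw2
  · have hus := h.spv hs
    have hut := h.spv ht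
    have hie : Integrable fun z => nsq (u s) z * χ z :=
      int_csR ((nsq_sm hus.1).continuous.mul hχ.continuous) (a := x) (R := R)
        fun z hz => by rw [hχ0 z hz, mul_zero]
    have hpost : 0 ≤ ∫ z, nsq (u t) z * χ z :=
      integral_nonneg fun z => mul_nonneg (nsq_nn _ _) (hχn z)
    have hb1 : ENNReal.ofReal (∫ z, nsq (u s) z * χ z) ≤ ENNReal.ofReal R * la G u t₀ x R := by
      rw [← ball_int_eq (a := x) (R := R) (f := fun z => nsq (u s) z * χ z)
        (fun z hz => by rw [hχ0 z hz, mul_zero])]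
      refine ofReal_int_le.trans ((lintegral_mono fun z => ENNReal.ofReal_le_ofReal ?_).trans
        (la_bd hR ⟨hs, by linarith [hsI.1], hsI.2⟩))
      exact (mul_le_mul_of_nonneg_left (hχ1 z) (nsq_nn _ _)).trans (by rw [mul_one])
    have hb2 : ∫ τ in Ioo s t, DD 1 u p (fun _ => χ) τ ≤ R := by
      have h1 : |∫ τ in Ioo s t, DD 1 u p (fun _ => χ) τ| ≤ ∫ τ in Ioo s t, C * K1 G u p τ := by
        refine abs_int_le ((K1_int h).integrableOn.const_mul C) ?_
        filter_upwards [aeT h (h.subG hs).1.le (h.subG ht).2.le] with τ hτ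
        rw [K1_in hτ]
        exact hCb τ hτ
      have h2 : ∫ τ in Ioo s t, K1 G u p τ ≤ ∫ τ in Ioo (t₀ - δ) (t₀ + δ), K1 G u p τ := by
        refine setIntegral_mono_set (K1_int h).integrableOn (ae_of_all _ fun t => K1_nn G u p t)
          (HasSubset.Subset.eventuallyLE ?_)
        exact Ioo_subset_Ioo (by linarith [hsI.1]) (by linarith [htI.2])
      rw [integral_const_mul] at h1
      have h3 : C * ∫ τ in Ioo s t, K1 G u p τ ≤ C * (R / C) :=
        mul_le_mul_of_nonneg_left (h2.trans hδK) hC.le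
      have h4 : C * (R / C) = R := by field_simp
      linarith [le_abs_self (∫ τ in Ioo s t, DD 1 u p (fun _ => χ) τ)]
    calc ENNReal.ofReal (Df G u p (fun τ y => θ τ * χ y))
        ≤ ENNReal.ofReal ((∫ z, nsq (u s) z * χ z) + R) := by
          refine ENNReal.ofReal_le_ofReal ?_
          rw [hθDf]
          linarith
      _ ≤ ENNReal.ofReal (∫ z, nsq (u s) z * χ z) + ENNReal.ofReal R := ENNReal.ofReal_add_le
      _ ≤ ENNReal.ofReal R * la G u t₀ x R + ENNReal.ofReal R := by gcongr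
      _ = _ := by ring

end

end Pool.Agent.Q62.JC
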