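import Pool.Agent.Q62.SD.Logc
import Pool.Agent.Q62.JC.Mid

/-!
Dissipation before a singular point where the local energy is bounded (helper62).
-/

set_option autoImplicit false

open MeasureTheory Set Metric Filter Topology
open scoped ContDiff ENNReal

namespace Pool.Agent.Q62.JC

open H459R3.NS W221.NS Pool.Agent.Y8 Pool.Agent.Q193.NS Pool.Agent.Q62.SD

/-- The dissipation in the unit ball is bounded by the majorant. -/
lemma gG_K1 : ∃ C : ℝ, 0 < C ∧ ∀ (T E D : ℝ) (G : Set ℝ) (u : ℝ → V → V) (p : ℝ → V → ℝ),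
    Turb 1 T E D G u p → ∀ (t : ℝ) (x : V),
      ∫⁻ y in ball x 1, gG G u (t, y) ≤ ENNReal.ofReal (C * K1 G u p t) := by
  obtain ⟨C, hC, hb⟩ := ball_le 1
  refine ⟨C, hC, fun T E D G u p h t x => ?_⟩
  by_cases ht : t ∈ G
  · have hs := h.spv ht
    have hgc := (gsq_sm hs.1).continuous
    calc ∫⁻ y in ball x 1, gG G u (t, y)
        = ∫⁻ y in ball x 1, ENNReal.ofReal (gsq (u t) y) :=
          lintegral_congr fun y => gG_eq ht y
      _ = ENNReal.ofReal (∫ y in ball x 1, gsq (u t) y) :=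
          (ofReal_integral_eq_lintegral_ofReal (ballint hgc _ _)
            (Eventually.of_forall fun x => gsq_nn (u t) x)).symm
      _ ≤ ENNReal.ofReal (C * K1 G u p t) := by
          refine ENNReal.ofReal_le_ofReal ?_
          refine (hb _ hgc (gsq_per hs.2) (gsq_nn _) x).trans ?_
          rw [← enst_eq hs.1, K1_in ht]
          refine mul_le_mul_of_nonneg_left ?_ hC.le
          unfold kk
          have : 0 ≤ ∫ y in cube, |p t y| ^ (3 / 2 : ℝ) := integral_nonneg fun y => by positivity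
          linarith
  · simp only [gG_eq0 ht, lintegral_zero, zero_le]

/-- Dissipation before a singular point where the local energy is bounded. -/
theorem dissE (M : ℝ) (hM : 1 ≤ M) : ∃ c : ℝ, 0 < c ∧ ∀ (T E D : ℝ) (G : Set ℝ)
    (u : ℝ → V → V) (p : ℝ → V → ℝ), Turb 1 T E D G u p → ∀ (t₀ : ℝ) (x₀ : V) (R : ℝ), 0 < R →
      R ≤ 1 → 0 < t₀ - R ^ 2 → t₀ < T → SingPt G u t₀ x₀ → la G u t₀ x₀ R ≤ ENNReal.ofReal M →
      ENNReal.ofReal (c * R) ≤ ∫⁻ t in Ioo (t₀ - (R / 10) ^ 2) t₀,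
        ∫⁻ y in ball x₀ (R / 10), gG G u (t, y) := by
  obtain ⟨ε, hε, hcrit⟩ := Pool.Agent.Y8.B.p_crit3
  obtain ⟨K', hK', hpath⟩ := Pool.Agent.Y8.B.p_wpath
  obtain ⟨K0, hK0, hsq⟩ := mo_sq
  obtain ⟨Cg, hCg, hgK⟩ := gG_K1
  have hM0 : 0 < M := zero_lt_one.trans_le hM
  set K : ℝ := K0 + 1 with hK
  have hK1 : 1 ≤ K := by linarith
  have hKp : 0 < K := by linarith
  set κ : ℝ := (1600 * K * M)⁻¹ with hκ
  have hκ0 : 0 < κ := by positivity
  have hκ1 : κ ≤ 1 / 160 := by
    rw [hκ, inv_le_comm₀ (by positivity) (by norm_num)]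
    norm_num
    nlinarith
  refine ⟨ε * κ / 2, by positivity, fun T E D G u p h t₀ x₀ R hR hR1 h1 h2 hsing hq => ?_⟩
  set r : ℝ := κ * R with hr
  have hr0 : 0 < r := by positivity
  have hrR : r ≤ R / 160 := by
    rw [hr]
    nlinarith
  have hr1 : r ≤ 1 := by linarith
  obtain ⟨C, hC, hex⟩ := hpath E r hr0 hr1
  have hR2' : 0 < R ^ 2 := by positivity
  have hz : t₀ ∈ Ioo 0 T := ⟨by linarith, h2⟩
  obtain ⟨X, Y, hX0, hP⟩ := hex T D G u p h t₀ hz x₀
  set B : ℝ := K' * |E| / √(r ^ 3) + 1 with hB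
  have hB0 : 0 < B := by positivity
  have hR2 : r ^ 2 ≤ (R / 160) ^ 2 := pow_le_pow_left₀ hr0.le hrR 2
  have hr2 : 0 < r ^ 2 := by positivity
  have hR3 : (R / 160) ^ 2 = R ^ 2 / 25600 := by ring
  -- the local energy
  have hA2 : ∀ t ∈ G ∩ Ioo (t₀ - R ^ 2) t₀, ∫ y in ball x₀ R, nsq (u t) y ≤ M * R := by
    intro t ht
    have hut := h.spv ht.1
    have g1 := la_bd (u := u) hR ht (x := x₀)
    have g2 : ENNReal.ofReal (∫ y in ball x₀ R, nsq (u t) y) ≤ ENNReal.ofReal (M * R) := by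
      refine ofReal_int_le.trans (g1.trans ?_)
      rw [mul_comm M R, ENNReal.ofReal_mul hR.le]
      gcongr
    exact (ENNReal.ofReal_le_ofReal_iff (by positivity)).1 g2
  set b : ℝ := √(K * M * R / r ^ 3) with hb
  have hb0 : 0 ≤ b := Real.sqrt_nonneg _
  have hYb : ∀ t ∈ G ∩ Ioo (t₀ - R ^ 2) t₀, ‖X t - x₀‖ ≤ R / 20 → ‖Y t‖ ≤ b := by
    intro t ht hXt
    have hut := h.spv ht.1
    rw [hP.ev t ht.1, pi_norm_le_iff_of_nonneg hb0]
    intro i
    rw [Real.norm_eq_abs, hb]
    refine Real.abs_le_sqrt ?_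
    have g1 := hsq (u t) hut.1.continuous r (X t) i hr0
    have hnc := (nsq_sm hut.1).continuous
    have hic : Continuous fun z => u t z i ^ 2 := ((continuous_apply i).comp hut.1.continuous).pow 2
    have g2 : ∫ z in ball (X t) r, u t z i ^ 2 ≤ ∫ z in ball x₀ R, nsq (u t) z := by
      calc ∫ z in ball (X t) r, u t z i ^ 2 ≤ ∫ z in ball (X t) r, nsq (u t) z :=
            setIntegral_mono (ballint hic _ _) (ballint hnc _ _) fun z => comp_sq_le (u t) z i
        _ ≤ ∫ z in ball x₀ R, nsq (u t) z := by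
            refine setIntegral_mono_set (ballint hnc _ _) (ae_of_all _ fun z => nsq_nn _ _)
              (HasSubset.Subset.eventuallyLE (ball_subset_ball' ?_))
            rw [dist_eq_norm]
            linarith
    have g3 := hA2 t ht
    have g4 : 0 ≤ ∫ z in ball (X t) r, u t z i ^ 2 := integral_nonneg fun z => sq_nonneg _
    calc mo r (u t) (X t) i ^ 2 ≤ K0 * (r ^ 3)⁻¹ * ∫ z in ball (X t) r, u t z i ^ 2 := g1
      _ ≤ K * (r ^ 3)⁻¹ * ∫ z in ball (X t) r, u t z i ^ 2 := by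
          gcongr
          linarith
      _ ≤ K * (r ^ 3)⁻¹ * (M * R) := by
          gcongr
          exact g2.trans g3
      _ = K * M * R / r ^ 3 := by
          rw [div_eq_mul_inv]
          ring
  have hbr : b * r ^ 2 = R / 40 := by
    have e1 : b * r ^ 2 = √(K * M * R / r ^ 3 * (r ^ 2) ^ 2) := by
      rw [Real.sqrt_mul' _ (by positivity), Real.sqrt_sq hr2.le]
    have e2 : K * M * R / r ^ 3 * (r ^ 2) ^ 2 = (R / 40) ^ 2 := by
      rw [hr, hκ]
      field_simp
      ring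
    rw [e1, e2, Real.sqrt_sq (by positivity)]
  have hYc : ContinuousOn Y (Ioo 0 T) := FPath.yc h hP
  have hXc : ContinuousOn X (Ioo 0 T) := fun t ht => (hP.hd t ht).continuousAt.continuousWithinAt
  have hstep : ∀ a : ℝ, t₀ - r ^ 2 ≤ a → a ≤ t₀ →
      (∀ τ ∈ Icc a t₀, ‖X τ - x₀‖ ≤ R / 20) → ‖X t₀ - X a‖ ≤ R / 20 / 2 := by
    intro a ha hat hXa
    have ha0 : 0 < a := by nlinarith
    have e1 : ∫ t in a..t₀, Y t = X t₀ - X a := by
      refine intervalIntegral.integral_eq_sub_of_hasDerivAt (fun t ht => ?_) ?_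
      · rw [uIcc_of_le hat] at ht
        exact hP.hd t ⟨ha0.trans_le ht.1, ht.2.trans_lt h2⟩
      · refine ContinuousOn.intervalIntegrable (hYc.mono ?_)
        rw [uIcc_of_le hat]
        exact fun t ht => ⟨ha0.trans_le ht.1, ht.2.trans_lt h2⟩
    rw [← e1, intervalIntegral.integral_of_le hat, integral_Ioc_eq_integral_Ioo]
    have hae : ∀ᵐ t ∂(volume.restrict (Ioo a t₀)), t ∈ G := aeT h ha0.le h2.le
    have e2 : ‖∫ t in Ioo a t₀, Y t‖ ≤ ∫ _ in Ioo a t₀, b := by
      refine norm_integral_le_of_norm_le (integrableOn_const (by simp)) ?_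
      filter_upwards [hae, ae_restrict_mem measurableSet_Ioo] with t ht htI
      refine hYb t ⟨ht, by nlinarith [htI.1], htI.2⟩ (hXa t ⟨htI.1.le, htI.2.le⟩)
    refine e2.trans ?_
    rw [setIntegral_const, smul_eq_mul]
    simp only [Measure.real, Real.volume_Ioo, ENNReal.toReal_ofReal (sub_nonneg.2 hat)]
    nlinarith
  have hbwd : ∀ t ∈ Icc (t₀ - r ^ 2) t₀, ‖X t - x₀‖ ≤ R / 20 / 2 := by
    have g : ∀ t ∈ Icc t₀ (t₀ + r ^ 2), ‖X (2 * t₀ - t) - x₀‖ ≤ R / 20 / 2 := by
      refine boot (f := fun t => ‖X (2 * t₀ - t) - x₀‖) ?_ (by positivity) ?_ ?_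
      · refine ContinuousOn.norm (ContinuousOn.sub ?_ continuousOn_const)
        refine hXc.comp (continuousOn_const.sub continuousOn_id) fun t ht => ?_
        have g1 := ht.1
        have g2 := ht.2
        constructor
        · nlinarith
        · nlinarith
      · beta_reduce
        rw [show 2 * t₀ - t₀ = t₀ by ring, hX0, sub_self, norm_zero]
        positivity
      · intro t ht hτ
        have := hstep (2 * t₀ - t) (by linarith [ht.2]) (by linarith [ht.1])
          fun τ hτ' => by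
            have g1 := hτ (2 * t₀ - τ) ⟨by linarith [hτ'.2], by linarith [hτ'.1]⟩
            beta_reduce at g1
            rwa [show 2 * t₀ - (2 * t₀ - τ) = τ by ring] at g1
        rwa [hX0, norm_sub_rev] at this
    intro t ht
    have := g (2 * t₀ - t) ⟨by linarith [ht.2], by linarith [ht.1]⟩
    rwa [show 2 * t₀ - (2 * t₀ - t) = t by ring] at this
  -- a short time after `t₀`
  obtain ⟨δ, hδ, hδK⟩ := K1_small h t₀ (show 0 < ε * r / (2 * Cg) by positivity)
  obtain ⟨η, hη0, hη⟩ : ∃ η : ℝ, 0 < η ∧ η < min (min δ (T - t₀)) (min (r ^ 2 / 16)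
      (R / (40 * B))) :=
    exists_between (lt_min (lt_min hδ (by linarith)) (lt_min (by positivity) (by positivity)))
  have hη1 : η < δ := hη.trans_le ((min_le_left _ _).trans (min_le_left _ _))
  have hη2 : η < T - t₀ := hη.trans_le ((min_le_left _ _).trans (min_le_right _ _))
  have hη3 : η < r ^ 2 / 16 := hη.trans_le ((min_le_right _ _).trans (min_le_left _ _))
  have hη4 : η < R / (40 * B) := hη.trans_le ((min_le_right _ _).trans (min_le_right _ _))
  have hfwd : ∀ t ∈ Icc t₀ (t₀ + η), ‖X t - x₀‖ ≤ R / 40 := by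
    intro t ht
    have g1 : ‖X t - X t₀‖ ≤ B * (t - t₀) := by
      refine norm_image_sub_le_of_norm_deriv_le_segment' (f' := Y) (b := t₀ + η)
        (fun τ hτ => (hP.hd τ ?_).hasDerivWithinAt) (fun τ hτ => hP.bd τ ?_) t ht
      · exact ⟨hz.1.trans_le hτ.1, hτ.2.trans_lt (by linarith)⟩
      · exact ⟨hz.1.trans_le hτ.1, hτ.2.trans (by linarith)⟩
    rw [hX0] at g1
    have g2 : B * η ≤ R / 40 := by
      have := mul_lt_mul_of_pos_left hη4 hB0
      have e : B * (R / (40 * B)) = R / 40 := by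
        field_simp
      linarith
    have g3 : B * (t - t₀) ≤ B * η := mul_le_mul_of_nonneg_left (by linarith [ht.2]) hB0.le
    linarith
  set s : ℝ := t₀ + η with hs
  have hall : ∀ t ∈ Icc (s - r ^ 2) s, ‖X t - x₀‖ ≤ R / 40 := by
    intro t ht
    rcases le_total t t₀ with hle | hle
    · have := hbwd t ⟨by linarith [ht.1], hle⟩
      linarith
    · exact hfwd t ⟨hle, ht.2⟩
  have hc := hcrit T E D G u p h r s hr0 hr1 (by nlinarith) (by linarith) X Y _ C hP t₀
    ⟨by linarith, by linarith⟩ x₀ (by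
      rw [hX0]
      exact mem_ball_self (by positivity)) hsing
  have hae : ∀ᵐ t ∂(volume.restrict (Ioo (s - r ^ 2) s)), t ∈ G :=
    aeT h (by nlinarith) (by linarith)
  set F : ℝ → ℝ≥0∞ := fun t => ∫⁻ y in ball x₀ (R / 10), gG G u (t, y) with hF
  have hmain : ENNReal.ofReal (ε * r) ≤ ∫⁻ t in Ioo (s - r ^ 2) s, F t := by
    calc ENNReal.ofReal (ε * r)
        ≤ ENNReal.ofReal (∫ t in Ioo (s - r ^ 2) s, B2 (X t) (8 * r) (u t)) :=
          ENNReal.ofReal_le_ofReal hc
      _ ≤ ∫⁻ t in Ioo (s - r ^ 2) s, ENNReal.ofReal (B2 (X t) (8 * r) (u t)) := ofReal_int_le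
      _ ≤ ∫⁻ t in Ioo (s - r ^ 2) s, F t := by
          refine lintegral_mono_ae ?_
          filter_upwards [hae, ae_restrict_mem measurableSet_Ioo] with t ht htI
          unfold B2
          refine ofReal_int_le.trans ?_
          refine (lintegral_mono_set (ball_subset_ball' (y := x₀) (ε₂ := R / 10) ?_)).trans
            (le_of_eq (lintegral_congr fun y => (gG_eq ht y).symm))
          have := hall t ⟨htI.1.le, htI.2.le⟩
          rw [dist_eq_norm]
          linarith
  have hlate : ∫⁻ t in Ico t₀ s, F t ≤ ENNReal.ofReal (ε * r / 2) := by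
    calc ∫⁻ t in Ico t₀ s, F t ≤ ∫⁻ t in Ico t₀ s, ENNReal.ofReal (Cg * K1 G u p t) := by
          refine lintegral_mono fun t => ?_
          exact (lintegral_mono_set (ball_subset_ball (by linarith))).trans
            (hgK T E D G u p h t x₀)
      _ ≤ ∫⁻ t in Ioo (t₀ - δ) (t₀ + δ), ENNReal.ofReal (Cg * K1 G u p t) :=
          lintegral_mono_set fun t ht => ⟨by linarith [ht.1], by linarith [ht.2]⟩
      _ = ENNReal.ofReal (∫ t in Ioo (t₀ - δ) (t₀ + δ), Cg * K1 G u p t) :=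
          (ofReal_integral_eq_lintegral_ofReal ((K1_int h).integrableOn.const_mul Cg)
            (ae_of_all _ fun t => mul_nonneg hCg.le (K1_nn G u p t))).symm
      _ ≤ ENNReal.ofReal (ε * r / 2) := by
          refine ENNReal.ofReal_le_ofReal ?_
          rw [integral_const_mul]
          have := mul_le_mul_of_nonneg_left hδK hCg.le
          have e : Cg * (ε * r / (2 * Cg)) = ε * r / 2 := by
            field_simp
          linarith
  have hsplit : ∫⁻ t in Ioo (s - r ^ 2) s, F t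
      ≤ (∫⁻ t in Ioo (s - r ^ 2) t₀, F t) + ∫⁻ t in Ico t₀ s, F t := by
    refine (lintegral_mono_set ?_).trans (lintegral_union_le _ _ _)
    intro t ht
    rcases lt_or_ge t t₀ with hlt | hge
    · exact Or.inl ⟨ht.1, hlt⟩
    · exact Or.inr ⟨hge, ht.2⟩
  have hsub : ∫⁻ t in Ioo (s - r ^ 2) t₀, F t ≤ ∫⁻ t in Ioo (t₀ - (R / 10) ^ 2) t₀, F t := by
    refine lintegral_mono_set (Ioo_subset_Ioo ?_ le_rfl)
    nlinarith
  have e0 : ENNReal.ofReal (ε * κ / 2 * R) = ENNReal.ofReal (ε * r / 2) := by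
    rw [hr]
    congr 1
    ring
  have e1 : ENNReal.ofReal (ε * r) = ENNReal.ofReal (ε * r / 2) + ENNReal.ofReal (ε * r / 2) := by
    rw [← ENNReal.ofReal_add (by positivity) (by positivity)]
    congr 1
    ring
  rw [e0]
  have h5 := hmain.trans (hsplit.trans (add_le_add hsub hlate))
  rw [e1] at h5
  exact (ENNReal.add_le_add_iff_right ENNReal.ofReal_ne_top).1 h5

end Pool.Agent.Q62.JC
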