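import Pool.Agent.Q62.JC.DissE

/-!
No energy is lost in a time slice outside the points of concentration (helper62).
-/

set_option autoImplicit false

open MeasureTheory Set Metric Filter Topology
open scoped ContDiff ENNReal

namespace Pool.Agent.Q62.JC

open H459R3.NS W221.NS Pool.Agent.Y8 Pool.Agent.Q193.NS Pool.Agent.Q62.SD Pool.Agent.W583.MD

/-- The points where the energy may concentrate at the time `t₀`. -/
def Conc (G : Set ℝ) (u : ℝ → V → V) (t₀ : ℝ) : Set V :=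
  {x | SingPt G u t₀ x ∧ Tendsto (fun r => la G u t₀ x r) (𝓝[>] 0) (𝓝 ⊤) ∧
    ∀ s : ℝ, s < 1 → ∀ M : ℝ, ∃ᶠ r in 𝓝[>] (0 : ℝ),
      ENNReal.ofReal (M * Real.log r⁻¹ ^ s) < la G u t₀ x r}

section

variable {T E D : ℝ} {G : Set ℝ} {u : ℝ → V → V} {p : ℝ → V → ℝ}

theorem slice_freq (h : Turb 1 T E D G u p) {t₀ : ℝ} (ht₀ : t₀ ∈ Ioo 0 T) (M n : ℝ)
    (hM : 1 ≤ M) :
    Nul T G u p {z | z.1 = t₀ ∧ SingPt G u t₀ z.2 ∧ ‖z.2‖ < n ∧
      ∃ᶠ r in 𝓝[>] (0 : ℝ), la G u t₀ z.2 r ≤ ENNReal.ofReal M} := by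
  set A : Set V := {x | SingPt G u t₀ x ∧ ‖x‖ < n ∧
      ∃ᶠ r in 𝓝[>] (0 : ℝ), la G u t₀ x r ≤ ENNReal.ofReal M} with hA
  obtain ⟨c, hc, hdiss⟩ := dissE M hM
  have hM0 : 0 < M := zero_lt_one.trans_le hM
  intro ε hε
  have hfin := nu_fin h (n + 1)
  set S : Set (ℝ × V) := {z | z.1 = t₀ ∧ z.2 ∈ A} with hS
  have hν0 : nu G u (n + 1) S = 0 := nu_sing h _ fun z hz => by
    have h1 := sing_time h hz.2.1
    rw [hz.1]
    exact h1
  set η : ℝ := ε * c / (1 + M) with hη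
  have hη0 : 0 < η := by positivity
  obtain ⟨O, hAO, hO, hOν⟩ := S.exists_isOpen_lt_of_lt (μ := nu G u (n + 1)) (ENNReal.ofReal η)
    (by rw [hν0]; exact ENNReal.ofReal_pos.2 hη0)
  -- the radii
  have hex : ∀ x ∈ A, ∃ R : ℝ, 0 < R ∧ R ≤ 1 ∧ 0 < t₀ - R ^ 2 ∧
      la G u t₀ x R ≤ ENNReal.ofReal M ∧
      Ioo (t₀ - (R / 10) ^ 2) t₀ ×ˢ ball x (R / 10) ⊆ O := by
    intro x hx
    obtain ⟨hs, hn, hf⟩ := hx
    obtain ⟨e, he, hball⟩ := Metric.isOpen_iff.1 hO (t₀, x) (hAO ⟨rfl, hs, hn, hf⟩)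
    set d : ℝ := min (min 1 e) t₀ with hd
    have hd0 : 0 < d := lt_min (lt_min one_pos he) ht₀.1
    have hev : ∀ᶠ r in 𝓝[>] (0 : ℝ), 0 < r ∧ r < d := by
      filter_upwards [self_mem_nhdsWithin, mem_nhdsWithin_of_mem_nhds (Iio_mem_nhds hd0)]
        with r a b
      exact ⟨a, b⟩
    obtain ⟨R, hqR, hR0, hRd⟩ := (hf.and_eventually hev).exists
    have h1 : R < 1 := hRd.trans_le ((min_le_left _ _).trans (min_le_left _ _))
    have h2 : R < e := hRd.trans_le ((min_le_left _ _).trans (min_le_right _ _))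
    have h3 : R < t₀ := hRd.trans_le (min_le_right _ _)
    have h5 : R ^ 2 < R := by nlinarith
    refine ⟨R, hR0, h1.le, by linarith, hqR, fun w hw => hball ?_⟩
    rw [mem_ball, Prod.dist_eq, max_lt_iff, Real.dist_eq]
    have h6 : (R / 10) ^ 2 < R := by nlinarith
    refine ⟨?_, ?_⟩
    · rw [abs_lt]
      constructor
      · linarith [hw.1.1]
      · linarith [hw.1.2]
    · exact (mem_ball.1 hw.2).trans (by linarith)
  choose! R hR0 hR1 hRa hRq hRO using hex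
  set B : V → Set V := fun x => ball x (R x / 10) with hB
  have hBne : ∀ x ∈ A, (B x).Nonempty := fun x hx => by
    have := hR0 x hx
    exact ⟨x, mem_ball_self (by positivity)⟩
  obtain ⟨w, hwA, hwd, hwc⟩ := Vitali.exists_disjoint_subfamily_covering_enlargement B A R (3 / 2)
    (by norm_num) (fun x hx => (hR0 x hx).le) 1 hR1 hBne
  have hwct : w.Countable := hwd.countable_of_isOpen (fun x _ => isOpen_ball) fun x hx =>
    hBne x (hwA hx)
  set Q : V → Set (ℝ × V) := fun x => Ioo (t₀ - (R x / 10) ^ 2) t₀ ×ˢ B x with hQ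
  have hQo : ∀ x, IsOpen (Q x) := fun x => isOpen_Ioo.prod isOpen_ball
  have hQd : w.PairwiseDisjoint Q := fun x hx y hy hxy =>
    Set.disjoint_left.2 fun z hz1 hz2 => Set.disjoint_left.1 (hwd hx hy hxy) hz1.2 hz2.2
  have hsum : ∑' b : w, nu G u (n + 1) (Q b) ≤ ENNReal.ofReal η := by
    rw [← measure_biUnion hwct hQd fun z _ => (hQo z).measurableSet]
    exact (measure_mono (iUnion₂_subset fun z hz => hRO z (hwA hz))).trans hOν.le
  have hcov := fun b : w => scov h ht₀ (b : V) (hR0 _ (hwA b.2)) (hRa _ (hwA b.2))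
  choose ψ hψT hψ0 hψ1 hψD using hcov
  refine ⟨w, hwct.to_subtype, ψ, hψT, hψ0, ?_, ?_⟩
  · rintro ⟨t, x⟩ ⟨ht, ha⟩
    have ha : x ∈ A := ha
    have ht : t = t₀ := ht
    obtain ⟨b, hbw, ⟨v, hva, hvb⟩, hab⟩ := hwc x ha
    refine ⟨⟨b, hbw⟩, ?_⟩
    rw [ht]
    refine hψ1 ⟨b, hbw⟩ x ?_
    have hRb0 := hR0 b (hwA hbw)
    have g3 := mem_ball.1 hva
    have g4 := mem_ball.1 hvb
    have g7 := dist_triangle_left x b v
    rw [← dist_eq_norm]
    change dist x b < 3 / 4 * R b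
    linarith
  · have h1 : ∀ b : w, ENNReal.ofReal (Df G u p (ψ b))
        ≤ ENNReal.ofReal ((1 + M) / c) * nu G u (n + 1) (Q b) := by
      intro b
      have hb := hwA b.2
      have hRb0 := hR0 _ hb
      refine (hψD b).trans ?_
      have hsub : ball (b : V) (R b / 10) ⊆ ball (0 : V) (n + 1) := by
        refine ball_subset_ball' ?_
        rw [dist_zero_right]
        have := hR1 _ hb
        have h2 := hb.2.1
        linarith
      have h2 : ENNReal.ofReal (c * R b) ≤ nu G u (n + 1) (Q b) := by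
        rw [hQ]
        beta_reduce
        rw [nu_cyl h measurableSet_Ioo hsub]
        exact hdiss T E D G u p h t₀ b (R b) hRb0 (hR1 _ hb) (hRa _ hb) ht₀.2 hb.1 (hRq _ hb)
      calc ENNReal.ofReal (R b) * (1 + la G u t₀ b (R b))
          ≤ ENNReal.ofReal (R b) * (1 + ENNReal.ofReal M) := by
            gcongr
            exact hRq _ hb
        _ = ENNReal.ofReal ((1 + M) / c) * ENNReal.ofReal (c * R b) := by
            rw [← ENNReal.ofReal_one, ← ENNReal.ofReal_add zero_le_one hM0.le,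
              ← ENNReal.ofReal_mul (by positivity), ← ENNReal.ofReal_mul (by positivity)]
            congr 1
            field_simp
        _ ≤ _ := by gcongr
    refine (ENNReal.tsum_le_tsum h1).trans ?_
    rw [ENNReal.tsum_mul_left]
    refine (mul_le_mul_right hsum _).trans ?_
    rw [← ENNReal.ofReal_mul (by positivity)]
    exact ENNReal.ofReal_le_ofReal (le_of_eq (by rw [hη]; field_simp))

/-- The singular points of the slice with logarithmic growth. -/
def Ls (G : Set ℝ) (u : ℝ → V → V) (t₀ σ M d : ℝ) : Set V :=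
  {x | SingPt G u t₀ x ∧
    ∀ r : ℝ, 0 < r → r < d → la G u t₀ x r ≤ ENNReal.ofReal (M * Real.log r⁻¹ ^ σ)}

theorem slice_log (h : Turb 1 T E D G u p) {t₀ : ℝ} (ht₀ : t₀ ∈ Ioo 0 T) {σ M d : ℝ}
    (hσ0 : 0 ≤ σ) (hσ : σ < 1) (hM : 0 < M) (hd : 0 < d) (hd1 : d ≤ 1 / 16) (hdt : d < t₀) :
    Nul T G u p {z | z.1 = t₀ ∧ z.2 ∈ Ls G u t₀ σ M d} := by
  intro ε hε
  set hh : ℝ → ℝ := fun r => r * Real.log r⁻¹ ^ σ with hhd
  have hnull : HNull hh {z | z.1 ∈ Ioo 0 T ∧ SingPt G u z.1 z.2} :=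
    main3 one_pos h (gau_of (pow_gauge hσ))
  set c : ℝ := 4 * (1 + M) with hc
  have hc0 : 0 < c := by positivity
  obtain ⟨ι, hι, cen, rad, hrad, hcov, hsum⟩ := hnull (d / 8) (by positivity) (ε / c)
    (by positivity)
  classical
  -- the centres
  set I : Set ι := {i | ∃ x, ((t₀, x) : ℝ × V) ∈ clc (cen i) (rad i) ∧ x ∈ Ls G u t₀ σ M d}
    with hI
  have hch : ∀ i : I, ∃ x, ((t₀, x) : ℝ × V) ∈ clc (cen i) (rad i) ∧ x ∈ Ls G u t₀ σ M d :=
    fun i => i.2
  choose z hz hzA using hch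
  have hr0 : ∀ i : I, 0 < 4 * rad i := fun i => by
    have := (hrad i).1
    positivity
  have hrd : ∀ i : I, 4 * rad i < d := fun i => by
    have := (hrad i).2
    linarith
  have hrsq : ∀ i : I, (4 * rad i) ^ 2 < d := fun i => by
    have h1 := hr0 i
    have h2 := hrd i
    nlinarith
  have hcov2 := fun i : I => scov h ht₀ (z i) (hr0 i)
    (show 0 < t₀ - (4 * rad i) ^ 2 by linarith [hrsq i])
  choose ψ hψT hψ0 hψ1 hψD using hcov2
  refine ⟨I, inferInstance, ψ, hψT, hψ0, ?_, ?_⟩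
  · rintro ⟨t, x⟩ ⟨ht, ha⟩
    have ha : x ∈ Ls G u t₀ σ M d := ha
    have ht : t = t₀ := ht
    have haS : ((t₀, x) : ℝ × V) ∈ {z : ℝ × V | z.1 ∈ Ioo 0 T ∧ SingPt G u z.1 z.2} :=
      ⟨ht₀, ha.1⟩
    obtain ⟨i, hi⟩ := mem_iUnion.1 (hcov haS)
    set j : I := ⟨i, ⟨x, hi, ha⟩⟩ with hj
    refine ⟨j, ?_⟩
    have hr := (hrad i).1
    have hzj : ((t₀, z j) : ℝ × V) ∈ clc (cen i) (rad i) := hz j
    rw [ht]
    refine hψ1 j x ?_
    have g1 := hi.2
    have g2 := hzj.2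
    have g3 : ‖x - z j‖ ≤ ‖x - (cen i).2‖ + ‖z j - (cen i).2‖ := by
      have := norm_sub_le (x - (cen i).2) (z j - (cen i).2)
      rwa [sub_sub_sub_cancel_right] at this
    have g1' : ‖x - (cen i).2‖ ≤ rad i := g1
    have g2' : ‖z j - (cen i).2‖ ≤ rad i := g2
    change ‖x - z j‖ < 3 / 4 * (4 * rad i)
    linarith
  · have h1 : ∀ i : I, ENNReal.ofReal (Df G u p (ψ i))
        ≤ ENNReal.ofReal c * ENNReal.ofReal (hh (rad i)) := by
      intro i
      have g4 := hr0 i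
      have g5 := hrd i
      have g6 := (hrad i).1
      refine (hψD i).trans ?_
      have hq := (hzA i).2 _ g4 g5
      -- the logarithm
      have hlog1 : 1 ≤ Real.log (4 * (rad i : ℝ))⁻¹ := by
        rw [Real.le_log_iff_exp_le (by positivity)]
        have e1 : Real.exp 1 < 16 := by
          have := Real.exp_one_lt_d9
          linarith
        have e2 : (16 : ℝ) ≤ (4 * (rad i : ℝ))⁻¹ := by
          rw [le_inv_comm₀ (by norm_num) g4]
          linarith
        linarith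
      have hlog2 : Real.log (4 * (rad i : ℝ))⁻¹ ≤ Real.log (rad i)⁻¹ := by
        refine Real.log_le_log (by positivity) ?_
        exact inv_anti₀ g6 (by linarith)
      have hlog3 : Real.log (4 * (rad i : ℝ))⁻¹ ^ σ ≤ Real.log (rad i)⁻¹ ^ σ :=
        Real.rpow_le_rpow (by linarith) hlog2 hσ0
      have hlog4 : 1 ≤ Real.log (rad i)⁻¹ ^ σ :=
        (Real.one_le_rpow hlog1 hσ0).trans hlog3
      calc ENNReal.ofReal (4 * rad i) * (1 + la G u t₀ (z i) (4 * rad i))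
          ≤ ENNReal.ofReal (4 * rad i) *
              (1 + ENNReal.ofReal (M * Real.log (4 * (rad i : ℝ))⁻¹ ^ σ)) := by gcongr
        _ = ENNReal.ofReal (4 * rad i * (1 + M * Real.log (4 * (rad i : ℝ))⁻¹ ^ σ)) := by
            have : 0 ≤ M * Real.log (4 * (rad i : ℝ))⁻¹ ^ σ := by
              have : 0 ≤ Real.log (4 * (rad i : ℝ))⁻¹ ^ σ := Real.rpow_nonneg (by linarith) _
              positivity
            rw [← ENNReal.ofReal_one, ← ENNReal.ofReal_add zero_le_one this,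
              ← ENNReal.ofReal_mul (by positivity)]
        _ ≤ ENNReal.ofReal (c * hh (rad i)) := by
            refine ENNReal.ofReal_le_ofReal ?_
            rw [hc, hhd]
            beta_reduce
            have g7 : 1 + M * Real.log (4 * (rad i : ℝ))⁻¹ ^ σ
                ≤ (1 + M) * Real.log (rad i)⁻¹ ^ σ := by
              have := mul_le_mul_of_nonneg_left hlog3 hM.le
              linarith
            calc 4 * rad i * (1 + M * Real.log (4 * (rad i : ℝ))⁻¹ ^ σ)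
                ≤ 4 * rad i * ((1 + M) * Real.log (rad i)⁻¹ ^ σ) :=
                  mul_le_mul_of_nonneg_left g7 (by positivity)
              _ = _ := by ring
        _ = _ := ENNReal.ofReal_mul hc0.le
    refine (ENNReal.tsum_le_tsum h1).trans ?_
    rw [ENNReal.tsum_mul_left]
    have h2 : ∑' i : I, ENNReal.ofReal (hh (rad i)) ≤ ∑' i, ENNReal.ofReal (hh (rad i)) :=
      ENNReal.tsum_comp_le_tsum_of_injective (f := fun i : I => (i : ι))
        Subtype.val_injective (fun i => ENNReal.ofReal (hh (rad i)))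
    refine (mul_le_mul_right (h2.trans hsum) _).trans ?_
    rw [← ENNReal.ofReal_mul hc0.le]
    exact ENNReal.ofReal_le_ofReal (le_of_eq (by field_simp))

/-- No energy is lost in a time slice outside the points of concentration. -/
theorem slice_good (h : Turb 1 T E D G u p) {t₀ : ℝ} (ht₀ : t₀ ∈ Ioo 0 T) :
    Nul T G u p {z | z.1 = t₀ ∧ z.2 ∉ Conc G u t₀} := by
  have h1 : Nul T G u p (⋃ m : ℕ × ℕ, {z | z.1 = t₀ ∧ SingPt G u t₀ z.2 ∧ ‖z.2‖ < (m.2 : ℝ) ∧
      ∃ᶠ r in 𝓝[>] (0 : ℝ), la G u t₀ z.2 r ≤ ENNReal.ofReal ((m.1 : ℝ) + 1)}) :=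
    Nul.iUnion fun m => slice_freq h ht₀ _ _ (by
      have : (0 : ℝ) ≤ m.1 := Nat.cast_nonneg _
      linarith)
  obtain ⟨k₀, hk₀⟩ := exists_nat_gt (1 / t₀)
  have h2 : Nul T G u p (⋃ k : ℕ, {z | z.1 = t₀ ∧ z.2 ∈ Ls G u t₀ (1 - 1 / ((k : ℝ) + 1))
      ((k : ℝ) + 1) (1 / ((k : ℝ) + k₀ + 16))}) := by
    refine Nul.iUnion fun k => ?_
    have hk : (0 : ℝ) ≤ k := Nat.cast_nonneg _
    have hk' : (0 : ℝ) ≤ k₀ := Nat.cast_nonneg _
    refine slice_log h ht₀ ?_ ?_ (by positivity) (by positivity) ?_ ?_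
    · rw [sub_nonneg, div_le_one (by positivity)]
      linarith
    · have : 0 < 1 / ((k : ℝ) + 1) := by positivity
      linarith
    · exact one_div_le_one_div_of_le (by norm_num) (by linarith)
    · rw [div_lt_iff₀ (by positivity)]
      rw [div_lt_iff₀ ht₀.1] at hk₀
      nlinarith [ht₀.1]
  refine (((nul_nsing h).union h1).union h2).mono ?_
  rintro z ⟨hz, hzB⟩
  have hz1 : z.1 ∈ Ioo 0 T := by
    rw [hz]
    exact ht₀
  by_cases hs : SingPt G u t₀ z.2
  swap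
  · exact Or.inl (Or.inl ⟨hz1, by rw [hz]; exact hs⟩)
  by_cases ht : Tendsto (fun r => la G u t₀ z.2 r) (𝓝[>] 0) (𝓝 ⊤)
  swap
  · left
    right
    rw [ENNReal.tendsto_nhds_top_iff_nat] at ht
    push Not at ht
    obtain ⟨m, hm⟩ := ht
    obtain ⟨n, hn⟩ := exists_nat_gt ‖z.2‖
    refine mem_iUnion.2 ⟨(m, n), hz, hs, hn, ?_⟩
    have hm' : ∃ᶠ r in 𝓝[>] (0 : ℝ), la G u t₀ z.2 r ≤ (m : ℝ≥0∞) := hm
    refine hm'.mono fun r hr => hr.trans ?_
    beta_reduce
    rw [← ENNReal.ofReal_natCast]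
    exact ENNReal.ofReal_le_ofReal (by simp)
  right
  have hex : ∃ s : ℝ, s < 1 ∧ ∃ M : ℝ, ¬ ∃ᶠ r in 𝓝[>] (0 : ℝ),
      ENNReal.ofReal (M * Real.log r⁻¹ ^ s) < la G u t₀ z.2 r := by
    by_contra hcon
    push Not at hcon
    exact hzB ⟨hs, ht, fun s hs1 M => hcon s hs1 M⟩
  obtain ⟨s, hs1, M, hM⟩ := hex
  rw [not_frequently] at hM
  obtain ⟨e, he, hball⟩ := mem_nhdsGT_iff_exists_Ioo_subset.1 hM
  have he : 0 < e := he
  obtain ⟨k, hk⟩ := exists_nat_gt (max (max (1 / (1 - s)) |M|) (1 / e))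
  have k0 : (0 : ℝ) ≤ k := Nat.cast_nonneg _
  have k0' : (0 : ℝ) ≤ k₀ := Nat.cast_nonneg _
  have k1 : 1 / (1 - s) < k := ((le_max_left _ _).trans (le_max_left _ _)).trans_lt hk
  have k2 : |M| < k := ((le_max_right _ _).trans (le_max_left _ _)).trans_lt hk
  have k3 : 1 / e < k := (le_max_right _ _).trans_lt hk
  have hs' : 0 < 1 - s := by linarith
  have l1 : 1 / ((k : ℝ) + 1) ≤ 1 - s := by
    rw [div_le_iff₀ (by positivity)]
    rw [div_lt_iff₀ hs'] at k1
    nlinarith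
  have l3 : 1 / ((k : ℝ) + k₀ + 16) < e := by
    rw [div_lt_iff₀ (by positivity)]
    rw [div_lt_iff₀ he] at k3
    nlinarith
  refine mem_iUnion.2 ⟨k, hz, hs, fun r hr0 hrd => ?_⟩
  have hr1 : r ∈ Ioo 0 e := ⟨hr0, hrd.trans l3⟩
  have h3 : ¬ ENNReal.ofReal (M * Real.log r⁻¹ ^ s) < la G u t₀ z.2 r := hball hr1
  refine (not_lt.1 h3).trans (ENNReal.ofReal_le_ofReal ?_)
  have hr16 : r < 1 / 16 := hrd.trans_le (one_div_le_one_div_of_le (by norm_num) (by linarith))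
  have hlog1 : 1 ≤ Real.log r⁻¹ := by
    rw [Real.le_log_iff_exp_le (by positivity)]
    have e1 : Real.exp 1 < 16 := by
      have := Real.exp_one_lt_d9
      linarith
    have e2 : (16 : ℝ) ≤ r⁻¹ := by
      rw [le_inv_comm₀ (by norm_num) hr0]
      linarith
    linarith
  have g1 : Real.log r⁻¹ ^ s ≤ Real.log r⁻¹ ^ (1 - 1 / ((k : ℝ) + 1)) :=
    Real.rpow_le_rpow_of_exponent_le hlog1 (by linarith)
  have g2 : 0 ≤ Real.log r⁻¹ ^ s := Real.rpow_nonneg (by linarith) _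
  calc M * Real.log r⁻¹ ^ s ≤ |M| * Real.log r⁻¹ ^ s :=
        mul_le_mul_of_nonneg_right (le_abs_self M) g2
    _ ≤ (k + 1) * Real.log r⁻¹ ^ (1 - 1 / ((k : ℝ) + 1)) :=
        mul_le_mul (by linarith) g1 g2 (by positivity)

/-! ### The energy around the time `t₀` -/

/-- Sets without defect in the slice do not carry a loss of energy at the time `t₀`. -/
theorem slice_loss (h : Turb 1 T E D G u p) {t₀ : ℝ} (ht₀ : t₀ ∈ Ioo 0 T) {A : Set V}
    (hA : Nul T G u p {z | z.1 = t₀ ∧ z.2 ∈ A}) {ε : ℝ} (hε : 0 < ε) :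
    ∃ O : Set V, IsOpen O ∧ A ⊆ O ∧ ∀ w : V → ℝ, ContDiff ℝ ∞ w → HasCompactSupport w →
      (∀ x, 0 ≤ w x ∧ w x ≤ 1) → tsupport w ⊆ O → ∃ δ : ℝ, 0 < δ ∧
        ∀ s ∈ G, s ∈ Ioo (t₀ - δ) t₀ → ∀ t ∈ G, t ∈ Ioo t₀ (t₀ + δ) →
          (∫ x, nsq (u s) x * w x) - (∫ x, nsq (u t) x * w x) ≤ ε := by
  obtain ⟨ι, hι, ψ, h1, h2, h3, h4⟩ := hA (ε / 2) (by positivity)
  set U : Set (ℝ × V) := ⋃ i, interior {w : ℝ × V | 1 ≤ ψ i w.1 w.2} with hU
  have hUo : IsOpen U := isOpen_iUnion fun i => isOpen_interior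
  refine ⟨{x | (t₀, x) ∈ U}, hUo.preimage (Continuous.prodMk continuous_const continuous_id),
    fun x hx => ?_, fun w hw hwc hw01 hsub => ?_⟩
  · obtain ⟨i, hi⟩ := h3 (t₀, x) ⟨rfl, hx⟩
    exact mem_iUnion.2 ⟨i, mem_interior_iff_mem_nhds.2 hi⟩
  -- a box containing the support
  obtain ⟨R, hR⟩ := hwc.isCompact.isBounded.subset_ball (0 : V)
  have hR1 : (0 : ℝ) < max R 1 := by positivity
  have hw0 : ∀ x ∉ ball (0 : V) (max R 1), w x = 0 := fun x hx => by
    by_contra hcon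
    exact hx (ball_subset_ball (le_max_left _ _) (hR (subset_tsupport _ hcon)))
  -- the tube
  have htube : ∃ d : ℝ, 0 < d ∧ Icc (t₀ - d) (t₀ + d) ×ˢ tsupport w ⊆ U := by
    obtain ⟨V1, V2, hV1, -, ht1, hw2, hVU⟩ := generalized_tube_lemma (isCompact_singleton (x := t₀))
      hwc.isCompact hUo (fun q hq => by
        obtain ⟨q1, q2⟩ := q
        have e1 : q1 = t₀ := hq.1
        rw [e1]
        exact hsub hq.2)
    obtain ⟨e, he, hball⟩ := Metric.isOpen_iff.1 hV1 t₀ (ht1 rfl)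
    refine ⟨e / 2, by positivity, fun q hq => hVU ⟨hball ?_, hw2 hq.2⟩⟩
    rw [mem_ball, Real.dist_eq, abs_lt]
    constructor
    · linarith [hq.1.1]
    · linarith [hq.1.2]
  obtain ⟨d, hd, hdU⟩ := htube
  obtain ⟨C, hC, hCb⟩ := DD_abs h hw hR1 hw0
  obtain ⟨δ₁, hδ₁, hδK⟩ := K1_small h t₀ (show 0 < ε / (2 * C) by positivity)
  refine ⟨min d δ₁, lt_min hd hδ₁, fun s hs hsI t ht htI => ?_⟩
  have hm1 : min d δ₁ ≤ d := min_le_left _ _
  have hm2 : min d δ₁ ≤ δ₁ := min_le_right _ _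
  obtain ⟨θ, hθ01, -, hθs, hθT, hθDf⟩ := mid h hw hR1 hw0 (fun x => (hw01 x).1) hs ht hsI.2 htI.1
  have hSp : Sp (fun τ x => θ τ * w x) ⊆ U := by
    have h5 : Sp (fun τ x => θ τ * w x) ⊆ tsupport θ ×ˢ tsupport w := by
      refine closure_minimal (fun z hz => ?_) ((isClosed_tsupport θ).prod (isClosed_tsupport w))
      refine ⟨subset_tsupport θ fun hc => hz ?_, subset_tsupport w fun hc => hz ?_⟩
      · beta_reduce
        rw [hc, zero_mul]
      · beta_reduce
        rw [hc, mul_zero]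
    refine h5.trans ((prod_mono (hθs.trans ?_) subset_rfl).trans hdU)
    exact Icc_subset_Icc (by linarith [hsI.1]) (by linarith [htI.2])
  have hDf : Df G u p (fun τ x => θ τ * w x) ≤ ε / 2 := by
    refine Df_le_cov h (by positivity) h1 h2 h4 hθT (fun τ x => ?_) fun z hz => ?_
    · exact mul_le_one₀ (hθ01 τ).2 (hw01 x).1 (hw01 x).2
    · obtain ⟨i, hi⟩ := mem_iUnion.1 (hSp hz)
      exact ⟨i, mem_interior_iff_mem_nhds.1 hi⟩
  have hint : |∫ τ in Ioo s t, DD 1 u p (fun _ => w) τ| ≤ ε / 2 := by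
    have g1 : |∫ τ in Ioo s t, DD 1 u p (fun _ => w) τ| ≤ ∫ τ in Ioo s t, C * K1 G u p τ := by
      refine abs_int_le ((K1_int h).integrableOn.const_mul C) ?_
      filter_upwards [aeT h (h.subG hs).1.le (h.subG ht).2.le] with τ hτ
      rw [K1_in hτ]
      exact hCb τ hτ
    have g2 : ∫ τ in Ioo s t, K1 G u p τ ≤ ∫ τ in Ioo (t₀ - δ₁) (t₀ + δ₁), K1 G u p τ := by
      refine setIntegral_mono_set (K1_int h).integrableOn (ae_of_all _ fun t => K1_nn G u p t)
        (HasSubset.Subset.eventuallyLE ?_)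
      exact Ioo_subset_Ioo (by linarith [hsI.1]) (by linarith [htI.2])
    rw [integral_const_mul] at g1
    have g3 : C * ∫ τ in Ioo s t, K1 G u p τ ≤ C * (ε / (2 * C)) :=
      mul_le_mul_of_nonneg_left (g2.trans hδK) hC.le
    have g4 : C * (ε / (2 * C)) = ε / 2 := by field_simp
    linarith
  rw [hθDf] at hDf
  have h6 := neg_abs_le (∫ τ in Ioo s t, DD 1 u p (fun _ => w) τ)
  linarith

lemma wp_le1 (x : V) : wp x ≤ 1 := by
  unfold wp
  have h1 : ∫ z, th z * (cube : Set V).indicator (fun _ => (1 : ℝ)) (x - z) ≤ ∫ z, th z := by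
    have hthi : Integrable (th : V → ℝ) := by
      have := (bmp : ContDiffBump (0 : V)).integrable_normed (μ := (volume : Measure V))
      exact this
    refine integral_mono_of_nonneg (ae_of_all _ fun z => mul_nonneg (th_nn z)
      (indicator_nonneg (fun _ _ => zero_le_one) _)) hthi (ae_of_all _ fun z => ?_)
    refine mul_le_of_le_one_right (th_nn z) ?_
    refine indicator_le' (fun _ _ => le_rfl) (fun _ _ => zero_le_one) _
  rwa [th_i1] at h1

/-- The balance tested with the partition of unity. -/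
lemma DD_wp (h : Turb 1 T E D G u p) {τ : ℝ} (hτ : τ ∈ G) :
    DD 1 u p (fun _ => wp) τ = -2 * enstrophy (u τ) := by
  have hcs : HasCompactSupport wp := hcsR fun x hx => wp_zero hx
  have hu := h.spv hτ
  have hp := h.sp hτ
  have hn := nsq_sm hu.1
  have hnp := nsq_per hu.2
  have e1 : ∫ x, gsq (u τ) x * wp x = enstrophy (u τ) := by
    rw [wp_int (gsq_sm hu.1).continuous (gsq_per hu.2), enst_eq hu.1]
  have e2 : ∫ x, nsq (u τ) x * (deriv (fun _ : ℝ => wp x) τ + 1 * lap wp x) = 0 := by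
    have g1 : ∀ x, nsq (u τ) x * (deriv (fun _ : ℝ => wp x) τ + 1 * lap wp x)
        = ∑ j, nsq (u τ) x * pd j (pd j wp) x := by
      intro x
      rw [deriv_const, zero_add, one_mul]
      unfold lap
      rw [Finset.mul_sum]
    have g2 : ∀ j, Integrable fun x => nsq (u τ) x * pd j (pd j wp) x := fun j =>
      int_cs (hn.continuous.mul (sm_pd (sm_pd wp_sm j) j).continuous)
        ((cs_pd (cs_pd hcs j) j).mul_left)
    simp only [g1]
    rw [integral_finsetSum _ fun j _ => g2 j]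
    exact Finset.sum_eq_zero fun j _ => wp_pd2 hn hnp j
  have e3 : ∫ x, (nsq (u τ) x + 2 * p τ x) * adv (u τ) wp x = 0 := by
    have hui : ∀ j, ContDiff ℝ ∞ fun x => u τ x j := fun j => contDiff_pi.1 hu.1 j
    have hf : ∀ j, ContDiff ℝ ∞ fun x => (nsq (u τ) x + 2 * p τ x) * u τ x j := fun j =>
      (hn.add (contDiff_const.mul hp.smooth)).mul (hui j)
    have hfp : ∀ j, Per fun x => (nsq (u τ) x + 2 * p τ x) * u τ x j := fun j i x => by
      beta_reduce
      rw [hnp i x, h.per_p τ hτ i x, hu.2 i x]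
    have g1 : ∀ x, (nsq (u τ) x + 2 * p τ x) * adv (u τ) wp x
        = ∑ j, ((nsq (u τ) x + 2 * p τ x) * u τ x j) * pd j wp x := by
      intro x
      unfold adv
      rw [Finset.mul_sum]
      exact Finset.sum_congr rfl fun j _ => by ring
    have g2 : ∀ j, Integrable fun x => ((nsq (u τ) x + 2 * p τ x) * u τ x j) * pd j wp x :=
      fun j => int_cs ((hf j).continuous.mul (sm_pd wp_sm j).continuous) ((cs_pd hcs j).mul_left)
    simp only [g1]
    rw [integral_finsetSum _ fun j _ => g2 j]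
    exact Finset.sum_eq_zero fun j _ => wp_pd (hf j) (hfp j) j
  unfold DD
  rw [e1, e2, e3]
  ring

/-- The energy is nonincreasing. -/
lemma en_anti (h : Turb 1 T E D G u p) {s t : ℝ} (hs : s ∈ G) (ht : t ∈ G) (hst : s ≤ t) :
    energy (u t) ≤ energy (u s) := by
  have hΦ : ContDiffOn ℝ ∞ (fun z : ℝ × V => (fun (_ : ℝ) x => wp x) z.1 z.2)
      (Ioo (-1) (T + 1) ×ˢ univ) := (wp_sm.comp contDiff_snd).contDiffOn
  have hsT := h.subG hs
  have htT := h.subG ht
  have hlei := lei Pool.Agent.Y494.NS.t_TCUT h hΦ (a := 0) (R := 3) (by norm_num)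
    (fun _ _ x hx => wp_zero hx) hs ht (by linarith [hsT.1]) hst (by linarith [htT.2])
    (fun _ _ z => wp_nn z)
  have h2 := hlei.2
  have hut := h.spv ht
  have hus := h.spv hs
  beta_reduce at h2
  rw [wp_int (nsq_sm hut.1).continuous (nsq_per hut.2),
    wp_int (nsq_sm hus.1).continuous (nsq_per hus.2), ← energy_eq hut.1, ← energy_eq hus.1] at h2
  have hDDi : ∫ τ in Ioo s t, DD 1 u p (fun _ => wp) τ
      = ∫ τ in Ioo s t, -2 * enstrophy (u τ) := by
    refine integral_congr_ae ?_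
    filter_upwards [aeT h (h.subG hs).1.le (h.subG ht).2.le] with τ hτ
    exact DD_wp h hτ
  have h3 : ∫ τ in Ioo s t, -2 * enstrophy (u τ) ≤ 0 :=
    integral_nonpos fun τ => by
      have := enst_nn (u τ)
      simp only [Pi.zero_apply]
      linarith
  have h4 : energy (u t) - energy (u s) ≤ ∫ τ in Ioo s t, DD 1 u p (fun _ => wp) τ := h2
  rw [hDDi] at h4
  linarith

/-- The energy does not jump if there are no points of concentration. -/
theorem no_jump (h : Turb 1 T E D G u p) {t₀ : ℝ} (ht₀ : t₀ ∈ Ioo 0 T)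
    (hC : Conc G u t₀ = ∅) {ε : ℝ} (hε : 0 < ε) : ∃ δ : ℝ, 0 < δ ∧
      ∀ s ∈ G, s ∈ Ioo (t₀ - δ) (t₀ + δ) → ∀ t ∈ G, t ∈ Ioo (t₀ - δ) (t₀ + δ) →
        |energy (u t) - energy (u s)| ≤ ε := by
  have hA : Nul T G u p {z | z.1 = t₀ ∧ z.2 ∈ (univ : Set V)} :=
    (slice_good h ht₀).mono fun z hz => ⟨hz.1, by rw [hC]; exact notMem_empty _⟩
  obtain ⟨O, -, hO, hw⟩ := slice_loss h ht₀ hA hε
  obtain ⟨δ, hδ, hδw⟩ := hw wp wp_sm (hcsR fun x hx => wp_zero hx) (fun x => ⟨wp_nn x, wp_le1 x⟩)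
    ((subset_univ _).trans hO)
  set d : ℝ := min δ (min t₀ (T - t₀)) with hd
  have hd0 : 0 < d := lt_min hδ (lt_min ht₀.1 (by linarith [ht₀.2]))
  have hd1 : d ≤ δ := min_le_left _ _
  have hd3 : d ≤ t₀ := (min_le_right _ _).trans (min_le_left _ _)
  have hd4 : d ≤ T - t₀ := (min_le_right _ _).trans (min_le_right _ _)
  have hen : ∀ τ ∈ G, ∫ x, nsq (u τ) x * wp x = energy (u τ) := fun τ hτ => by
    have hu := h.spv hτ
    rw [wp_int (nsq_sm hu.1).continuous (nsq_per hu.2), ← energy_eq hu.1]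
  -- ordered pairs
  have key : ∀ s ∈ G, s ∈ Ioo (t₀ - d) (t₀ + d) → ∀ t ∈ G, t ∈ Ioo (t₀ - d) (t₀ + d) → s ≤ t →
      energy (u s) - energy (u t) ≤ ε := by
    intro s hs hsI t ht htI hst
    obtain ⟨s', hs', hs'I⟩ := denG h (show t₀ - d < min s t₀ by
      rw [lt_min_iff]; exact ⟨hsI.1, by linarith⟩) (by linarith) ((min_le_right _ _).trans ht₀.2.le)
    obtain ⟨t', ht', ht'I⟩ := denG h (show max t t₀ < t₀ + d by
      rw [max_lt_iff]; exact ⟨htI.2, by linarith⟩) (ht₀.1.le.trans (le_max_right _ _)) (by linarith)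
    have a1 : s' < s := hs'I.2.trans_le (min_le_left _ _)
    have a2 : s' < t₀ := hs'I.2.trans_le (min_le_right _ _)
    have a3 : t < t' := (le_max_left _ _).trans_lt ht'I.1
    have a4 : t₀ < t' := (le_max_right _ _).trans_lt ht'I.1
    have b1 := en_anti h hs' hs a1.le
    have b2 := en_anti h ht ht' a3.le
    have b3 := hδw s' hs' ⟨by linarith [hs'I.1], a2⟩ t' ht' ⟨a4, by linarith [ht'I.2]⟩
    rw [hen s' hs', hen t' ht'] at b3
    linarith
  refine ⟨d, hd0, fun s hs hsI t ht htI => ?_⟩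
  rcases le_total s t with hst | hst
  · have h1 := key s hs hsI t ht htI hst
    have h2 := en_anti h hs ht hst
    rw [abs_le]
    constructor <;> linarith
  · have h1 := key t ht htI s hs hsI hst
    have h2 := en_anti h ht hs hst
    rw [abs_le]
    constructor <;> linarith

end

end Pool.Agent.Q62.JC
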